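import Pool.Agent.Y752.QF.Stm
import Pool.Agent.H343R2.PV

/-!
Project QF, job QF-CC1: correlation of primitive characters of different moduli.
-/

set_option autoImplicit false

namespace Pool.Agent.Y815.QF

open Finset H343 H343.Gauss H343.PVaux
open Pool.Agent.Y752.QF (DC cv S_CC1)

section

variable {q : ℕ} [NeZero q]

theorem e_nat (a : ZMod q) (n : ℕ) :
    (ZMod.stdAddChar a : ℂ) ^ n = ZMod.stdAddChar ((n : ZMod q) * a) := by
  rw [← nsmul_eq_mul, AddChar.map_nsmul_eq_pow]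

theorem e_self (a : ZMod q) : (ZMod.stdAddChar a : ℂ) ^ q = 1 := by
  rw [e_nat, ZMod.natCast_self, zero_mul, AddChar.map_zero_eq_one]

theorem e_ne (a : ZMod q) : (ZMod.stdAddChar a : ℂ) ≠ 0 := by
  intro h
  have h1 := e_self a
  rw [h, zero_pow (NeZero.ne q)] at h1
  exact zero_ne_one h1

theorem e_one_iff (a : ZMod q) : (ZMod.stdAddChar a : ℂ) = 1 ↔ a = 0 := by
  rw [← (ZMod.stdAddChar (N := q)).map_zero_eq_one, ZMod.injective_stdAddChar.eq_iff]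

theorem e_dvd {a : ZMod q} (ha : IsUnit a) (n : ℕ) (h : (ZMod.stdAddChar a : ℂ) ^ n = 1) :
    q ∣ n := by
  rw [e_nat, e_one_iff, ha.mul_left_eq_zero] at h
  exact (ZMod.natCast_eq_zero_iff n q).1 h

variable {q' : ℕ} [NeZero q']

theorem z_ne_one (hne : q ≠ q') {a : ZMod q} {b : ZMod q'} (ha : IsUnit a) (hb : IsUnit b) :
    (ZMod.stdAddChar a : ℂ) * (ZMod.stdAddChar b : ℂ) ≠ 1 := by
  intro h
  apply hne
  refine Nat.dvd_antisymm (e_dvd ha q' ?_) (e_dvd hb q ?_)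
  · have h1 := congrArg (fun z : ℂ => z ^ q') h
    simp only [mul_pow, e_self b, mul_one, one_pow] at h1
    exact h1
  · have h1 := congrArg (fun z : ℂ => z ^ q) h
    simp only [mul_pow, e_self a, one_mul, one_pow] at h1
    exact h1

theorem z_pow (a : ZMod q) (b : ZMod q') :
    ((ZMod.stdAddChar a : ℂ) * (ZMod.stdAddChar b : ℂ)) ^ (q.lcm q') = 1 := by
  obtain ⟨c, hc⟩ := Nat.dvd_lcm_left q q'
  obtain ⟨c', hc'⟩ := Nat.dvd_lcm_right q q'
  have h1 : (ZMod.stdAddChar a : ℂ) ^ (q.lcm q') = 1 := by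
    rw [hc, pow_mul, e_self, one_pow]
  have h2 : (ZMod.stdAddChar b : ℂ) ^ (q.lcm q') = 1 := by
    rw [hc', pow_mul, e_self, one_pow]
  rw [mul_pow, h1, h2, one_mul]

/-- few pairs with the same product -/
theorem fib (z : ℂ) : (univ.filter fun p : ZMod q × ZMod q' =>
    (ZMod.stdAddChar p.1 : ℂ) * (ZMod.stdAddChar p.2 : ℂ) = z).card ≤ q.gcd q' := by
  classical
  have hq : 0 < q := Nat.pos_of_ne_zero (NeZero.ne q)
  have hg : 0 < q.gcd q' := Nat.gcd_pos_of_pos_left _ hq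
  rcases (univ.filter fun p : ZMod q × ZMod q' =>
    (ZMod.stdAddChar p.1 : ℂ) * (ZMod.stdAddChar p.2 : ℂ) = z).eq_empty_or_nonempty with h | h
  · rw [h]
    exact Nat.zero_le _
  obtain ⟨p0, hp0⟩ := h
  have hz0 : (ZMod.stdAddChar p0.1 : ℂ) * (ZMod.stdAddChar p0.2 : ℂ) = z := (mem_filter.1 hp0).2
  have hcard : (Polynomial.nthRootsFinset (q.gcd q') (1 : ℂ)).card = q.gcd q' :=
    (Complex.isPrimitiveRoot_exp _ hg.ne').card_nthRootsFinset
  rw [← hcard]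
  refine card_le_card_of_injOn (fun p => (ZMod.stdAddChar (p.1 - p0.1) : ℂ)) ?_ ?_
  · intro p hp
    have hz : (ZMod.stdAddChar p.1 : ℂ) * (ZMod.stdAddChar p.2 : ℂ) = z :=
      (mem_filter.1 (mem_coe.1 hp)).2
    have h1 : (ZMod.stdAddChar (p.1 - p0.1) : ℂ) = ZMod.stdAddChar (p0.2 - p.2) := by
      rw [AddChar.map_sub_eq_div, AddChar.map_sub_eq_div, div_eq_div_iff
        (e_ne _) (e_ne _), hz, ← hz0, mul_comm]
    rw [mem_coe, Polynomial.mem_nthRootsFinset hg, pow_gcd_eq_one]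
    refine ⟨e_self _, ?_⟩
    simp only
    rw [h1]
    exact e_self _
  · intro p hp p' hp' h
    have hz : (ZMod.stdAddChar p.1 : ℂ) * (ZMod.stdAddChar p.2 : ℂ) = z :=
      (mem_filter.1 (mem_coe.1 hp)).2
    have hz' : (ZMod.stdAddChar p'.1 : ℂ) * (ZMod.stdAddChar p'.2 : ℂ) = z :=
      (mem_filter.1 (mem_coe.1 hp')).2
    have h1 : p.1 = p'.1 := by
      have h2 : p.1 - p0.1 = p'.1 - p0.1 := ZMod.injective_stdAddChar h
      exact sub_left_injective h2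
    have h2 : p.2 = p'.2 := by
      rw [← hz', h1] at hz
      exact ZMod.injective_stdAddChar (mul_left_cancel₀ (e_ne _) hz)
    exact Prod.ext h1 h2

end

/-- geometric sums -/
theorem geo (L c A B : ℕ) (hc : 1 ≤ c) (hcL : c < L) (hAB : A ≤ B) :
    ‖∑ n ∈ Ioc A B, (ex (1 / L) ^ c) ^ n‖ ≤ (L : ℝ) / 2 * (1 / c + 1 / ((L - c : ℕ) : ℝ)) := by
  have h1 : Ioc A B = (Icc 1 (B - A)).image (fun m => A + m) := by
    ext x
    simp only [mem_Ioc, mem_image, mem_Icc]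
    constructor
    · rintro ⟨h1, h2⟩
      exact ⟨x - A, by omega, by omega⟩
    · rintro ⟨m, h1, rfl⟩
      omega
  have h2 : ∀ n : ℕ, (ex (1 / L) ^ c) ^ n = ex (n * ((c : ℝ) / L)) := by
    intro n
    rw [← ex_nat_mul, ← ex_nat_mul]
    congr 1
    ring
  rw [h1, sum_image (by intro a _ b _ h; simpa using h)]
  simp only [pow_add]
  rw [← mul_sum, norm_mul]
  have h3 : ‖(ex (1 / L) ^ c) ^ A‖ = 1 := by
    rw [norm_pow, norm_pow, norm_ex, one_pow, one_pow]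
  rw [h3, one_mul]
  simp only [h2]
  exact geom_le (B - A) L c hc hcL

theorem prim_root (L : ℕ) (hL : L ≠ 0) : IsPrimitiveRoot (ex (1 / L)) L := by
  have h1 : ex (1 / L) = Complex.exp (2 * Real.pi * Complex.I / L) := by
    unfold ex
    congr 1
    push_cast
    ring
  rw [h1]
  exact Complex.isPrimitiveRoot_exp L hL

theorem main_sum (q q' : ℕ) [NeZero q] [NeZero q'] (hne : q ≠ q') (A B : ℕ) (hAB : A ≤ B) :
    ∑ p ∈ univ.filter (fun p : ZMod q × ZMod q' => IsUnit p.1 ∧ IsUnit p.2),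
      ‖∑ n ∈ Ioc A B, ((ZMod.stdAddChar p.1 : ℂ) * (ZMod.stdAddChar p.2 : ℂ)) ^ n‖ ≤
      (q * q' : ℝ) * (1 + Real.log (q * q')) := by
  classical
  obtain ⟨L, hL⟩ : ∃ L, L = q.lcm q' := ⟨_, rfl⟩
  have hq : 0 < q := Nat.pos_of_ne_zero (NeZero.ne q)
  have hq' : 0 < q' := Nat.pos_of_ne_zero (NeZero.ne q')
  have hL0 : 0 < L := hL ▸ Nat.lcm_pos hq hq'
  have h1 : ∀ p ∈ univ.filter (fun p : ZMod q × ZMod q' => IsUnit p.1 ∧ IsUnit p.2),
      ∃ c ∈ Ico 1 L, (ZMod.stdAddChar p.1 : ℂ) * (ZMod.stdAddChar p.2 : ℂ) = ex (1 / L) ^ c := by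
    intro p hp
    obtain ⟨-, ha, hb⟩ := mem_filter.1 hp
    have h2 : ((ZMod.stdAddChar p.1 : ℂ) * (ZMod.stdAddChar p.2 : ℂ)) ^ L = 1 := by
      rw [hL]
      exact z_pow p.1 p.2
    have : NeZero L := ⟨hL0.ne'⟩
    obtain ⟨c, hc, hcz⟩ := (prim_root L hL0.ne').eq_pow_of_pow_eq_one h2
    refine ⟨c, mem_Ico.2 ⟨?_, hc⟩, hcz.symm⟩
    rcases Nat.eq_zero_or_pos c with h3 | h3
    · rw [h3, pow_zero] at hcz
      exact absurd hcz.symm (z_ne_one hne ha hb)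
    · exact h3
  choose! c hc1 hc2 using h1
  rw [← Finset.sum_fiberwise_of_maps_to hc1]
  have h3 : ∀ j ∈ Ico 1 L, ∑ p ∈ (univ.filter
      (fun p : ZMod q × ZMod q' => IsUnit p.1 ∧ IsUnit p.2)).filter (fun p => c p = j),
      ‖∑ n ∈ Ioc A B, ((ZMod.stdAddChar p.1 : ℂ) * (ZMod.stdAddChar p.2 : ℂ)) ^ n‖ ≤
      (q.gcd q' : ℝ) * ((L : ℝ) / 2 * (1 / j + 1 / ((L - j : ℕ) : ℝ))) := by
    intro j hj
    rw [mem_Ico] at hj
    have h4 : ∀ p ∈ (univ.filter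
        (fun p : ZMod q × ZMod q' => IsUnit p.1 ∧ IsUnit p.2)).filter (fun p => c p = j),
        ‖∑ n ∈ Ioc A B, ((ZMod.stdAddChar p.1 : ℂ) * (ZMod.stdAddChar p.2 : ℂ)) ^ n‖ ≤
          (L : ℝ) / 2 * (1 / j + 1 / ((L - j : ℕ) : ℝ)) := by
      intro p hp
      obtain ⟨hp1, hp2⟩ := mem_filter.1 hp
      rw [hc2 p hp1, hp2]
      exact geo L j A B hj.1 hj.2 hAB
    refine (sum_le_sum h4).trans ?_
    rw [sum_const, nsmul_eq_mul]
    refine mul_le_mul_of_nonneg_right ?_ (by positivity)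
    have h5 : (univ.filter
        (fun p : ZMod q × ZMod q' => IsUnit p.1 ∧ IsUnit p.2)).filter (fun p => c p = j) ⊆
        univ.filter fun p : ZMod q × ZMod q' =>
          (ZMod.stdAddChar p.1 : ℂ) * (ZMod.stdAddChar p.2 : ℂ) = ex (1 / L) ^ j := by
      intro p hp
      obtain ⟨hp1, hp2⟩ := mem_filter.1 hp
      rw [mem_filter]
      refine ⟨mem_univ _, ?_⟩
      rw [hc2 p hp1, hp2]
    exact_mod_cast (card_le_card h5).trans (fib _)
  refine (sum_le_sum h3).trans ?_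
  rw [← mul_sum, ← mul_sum, sum_add_distrib, sum_reflect L hL0]
  have h6 := harmonic_le L hL0
  have h7 : (q.gcd q' : ℝ) * L = q * q' := by
    rw [hL]
    exact_mod_cast Nat.gcd_mul_lcm q q'
  have h8 : Real.log L ≤ Real.log (q * q') := by
    refine Real.log_le_log (by exact_mod_cast hL0) ?_
    have h9 : L ≤ q * q' := by
      rw [hL]
      exact Nat.le_of_dvd (Nat.mul_pos hq hq') (Nat.lcm_dvd_mul q q')
    exact_mod_cast h9
  have h10 : (0 : ℝ) ≤ (q.gcd q' : ℝ) * L := by positivity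
  calc (q.gcd q' : ℝ) * ((L : ℝ) / 2 * (∑ i ∈ Ico 1 L, 1 / (i : ℝ) + ∑ i ∈ Ico 1 L, 1 / (i : ℝ)))
      = ((q.gcd q' : ℝ) * L) * ∑ i ∈ Ico 1 L, 1 / (i : ℝ) := by ring
    _ ≤ ((q.gcd q' : ℝ) * L) * (1 + Real.log (q * q')) :=
        mul_le_mul_of_nonneg_left (h6.trans (by linarith)) h10
    _ = (q * q' : ℝ) * (1 + Real.log (q * q')) := by rw [h7]

theorem core (q q' : ℕ) [NeZero q] [NeZero q'] (hne : q ≠ q') (χ : DirichletCharacter ℂ q)
    (χ' : DirichletCharacter ℂ q') (hχ : χ.IsPrimitive) (hχ' : χ'.IsPrimitive) (r A B : ℕ)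
    (hAB : A ≤ B) :
    ‖∑ n ∈ Ioc A B, χ ((n + r : ℕ) : ZMod q) * (starRingEnd ℂ) (χ' (n : ZMod q'))‖ ≤
      Real.sqrt (q * q') * (1 + Real.log (q * q')) := by
  classical
  have hq : 0 < q := Nat.pos_of_ne_zero (NeZero.ne q)
  have hq' : 0 < q' := Nat.pos_of_ne_zero (NeZero.ne q')
  have hinv : (χ⁻¹).IsPrimitive := by
    rw [DirichletCharacter.isPrimitive_def, DirichletCharacter.conductor_inv]
    exact hχ
  obtain ⟨τ, hτ⟩ : ∃ τ : ℂ, τ = gaussSum χ⁻¹ (ZMod.stdAddChar : AddChar (ZMod q) ℂ) := ⟨_, rfl⟩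
  obtain ⟨τ', hτ'⟩ : ∃ τ' : ℂ, τ' = gaussSum χ' (ZMod.stdAddChar : AddChar (ZMod q') ℂ) :=
    ⟨_, rfl⟩
  have hn : ‖τ‖ = Real.sqrt q := by
    rw [hτ, ← GS_eq, GS_primitive q hq _ hinv]
  have hn' : ‖τ'‖ = Real.sqrt q' := by
    rw [hτ', ← GS_eq, GS_primitive q' hq' _ hχ']
  have h1 : ∀ n : ℕ, χ ((n + r : ℕ) : ZMod q) * τ =
      ∑ a : ZMod q, χ⁻¹ a * ZMod.stdAddChar ((r : ZMod q) * a) * (ZMod.stdAddChar a : ℂ) ^ n := by
    intro n
    have h2 := gaussSum_mulShift_of_isPrimitive (ZMod.stdAddChar : AddChar (ZMod q) ℂ) hinv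
      ((n + r : ℕ) : ZMod q)
    rw [inv_inv] at h2
    rw [hτ, ← h2]
    unfold gaussSum
    refine sum_congr rfl fun a _ => ?_
    rw [AddChar.mulShift_apply, e_nat, mul_assoc, ← AddChar.map_add_eq_mul]
    congr 2
    push_cast
    ring
  have h1' : ∀ n : ℕ, (starRingEnd ℂ) (χ' (n : ZMod q')) * τ' =
      ∑ b : ZMod q', χ' b * (ZMod.stdAddChar b : ℂ) ^ n := by
    intro n
    have h2 := gaussSum_mulShift_of_isPrimitive (ZMod.stdAddChar : AddChar (ZMod q') ℂ) hχ'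
      (n : ZMod q')
    have h3 : (starRingEnd ℂ) (χ' (n : ZMod q')) = χ'⁻¹ (n : ZMod q') :=
      MulChar.star_apply' χ' _
    rw [h3, hτ', ← h2]
    unfold gaussSum
    refine sum_congr rfl fun a _ => ?_
    rw [AddChar.mulShift_apply, e_nat]
  have h4 : (∑ n ∈ Ioc A B, χ ((n + r : ℕ) : ZMod q) * (starRingEnd ℂ) (χ' (n : ZMod q'))) *
      (τ * τ') = ∑ p : ZMod q × ZMod q', (χ⁻¹ p.1 * ZMod.stdAddChar ((r : ZMod q) * p.1) * χ' p.2) *
        ∑ n ∈ Ioc A B, ((ZMod.stdAddChar p.1 : ℂ) * (ZMod.stdAddChar p.2 : ℂ)) ^ n := by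
    rw [sum_mul]
    have h5 : ∀ n ∈ Ioc A B, χ ((n + r : ℕ) : ZMod q) * (starRingEnd ℂ) (χ' (n : ZMod q')) *
        (τ * τ') = ∑ p : ZMod q × ZMod q', (χ⁻¹ p.1 * ZMod.stdAddChar ((r : ZMod q) * p.1) *
          χ' p.2) * ((ZMod.stdAddChar p.1 : ℂ) * (ZMod.stdAddChar p.2 : ℂ)) ^ n := by
      intro n _
      have h6 : χ ((n + r : ℕ) : ZMod q) * (starRingEnd ℂ) (χ' (n : ZMod q')) * (τ * τ') =
          (χ ((n + r : ℕ) : ZMod q) * τ) * ((starRingEnd ℂ) (χ' (n : ZMod q')) * τ') := by ring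
      rw [h6, h1 n, h1' n, sum_mul_sum, Fintype.sum_prod_type]
      refine sum_congr rfl fun a _ => sum_congr rfl fun b _ => ?_
      simp only [mul_pow]
      ring
    rw [sum_congr rfl h5, sum_comm]
    refine sum_congr rfl fun p _ => ?_
    rw [mul_sum]
  have h7 : ‖(∑ n ∈ Ioc A B, χ ((n + r : ℕ) : ZMod q) * (starRingEnd ℂ) (χ' (n : ZMod q'))) *
      (τ * τ')‖ ≤ (q * q' : ℝ) * (1 + Real.log (q * q')) := by
    rw [h4]
    refine (norm_sum_le _ _).trans (le_trans ?_ (main_sum q q' hne A B hAB))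
    rw [sum_filter]
    refine sum_le_sum fun p _ => ?_
    by_cases hp : IsUnit p.1 ∧ IsUnit p.2
    · rw [if_pos hp, norm_mul]
      refine mul_le_of_le_one_left (norm_nonneg _) ?_
      rw [norm_mul, norm_mul, AddChar.norm_apply, mul_one]
      exact mul_le_one₀ (DirichletCharacter.norm_le_one _ _) (norm_nonneg _)
        (DirichletCharacter.norm_le_one _ _)
    · rw [if_neg hp]
      rcases not_and_or.1 hp with h8 | h8
      · rw [MulChar.map_nonunit _ h8, zero_mul, zero_mul, zero_mul, norm_zero]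
      · rw [MulChar.map_nonunit χ' h8, mul_zero, zero_mul, norm_zero]
  have hsq : Real.sqrt (q * q') = Real.sqrt q * Real.sqrt q' := Real.sqrt_mul (Nat.cast_nonneg _) _
  rw [norm_mul, norm_mul, hn, hn', ← hsq] at h7
  have hpos : 0 < Real.sqrt (q * q') := by
    apply Real.sqrt_pos.2
    have : (0 : ℝ) < q := by exact_mod_cast hq
    have : (0 : ℝ) < q' := by exact_mod_cast hq'
    positivity
  have h9 : (q * q' : ℝ) * (1 + Real.log (q * q')) =
      (Real.sqrt (q * q') * (1 + Real.log (q * q'))) * Real.sqrt (q * q') := by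
    have := Real.mul_self_sqrt (show (0 : ℝ) ≤ q * q' by positivity)
    linear_combination (-(1 + Real.log (q * q'))) * this
  rw [h9] at h7
  exact le_of_mul_le_mul_right h7 hpos

theorem CC1 : S_CC1 := by
  refine ⟨1, one_pos, ?_⟩
  rintro ⟨q, χ⟩ ⟨q', χ'⟩ h0 h0' hp hp' hne r A B hAB
  have : NeZero q := ⟨h0⟩
  have : NeZero q' := ⟨h0'⟩
  rw [one_mul]
  exact core q q' hne χ χ' hp hp' r A B hAB

end Pool.Agent.Y815.QF
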